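import Pool.Agent.Helper11.EXT.Top
import Pool.Agent.BICS.Asm

/-!
# Interconnected bicircular and cobicircular minors with two loosely linked squares

Problem MP_5165fa_co (Geelen).  For every `k` there is `κ₀`, and for every `κ₁` there is `s₀`, with
the following property.  Let `M` be a finite matroid with arbitrary minors
`N₁ = M / C₁ \ D₁ ≅ B(G_n^+)` and `N₂ = M / C₂ \ D₂ ≅ B^*(G_n^+)` on disjoint ground sets `E₁`,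
`E₂`, with `κ_M(E₁, E₂) ≥ κ₀`.  Let `σ₁`, `σ₂` be squares of sides `≥ s₀` of the two grids, `X`, `Y`
the elements of `N₁`, `N₂` with both ends in `σ₁`, `σ₂`, and `F₁`, `F₂` the elements with no end in
`σ₁`, `σ₂`.  Let `M'` arise from `M` by contracting the elements that are contracted for `N₁`, not
deleted for `N₂` and not in `Y` and the elements of `F₁` not deleted for `N₂`, and by deleting the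
elements that are deleted for `N₂`, not contracted for `N₁` and not in `X` and the elements of `F₂`
not contracted for `N₁`.  If `κ_{M'}(X, Y) ≤ κ₁`, then `M` has a `U_{k,2k}`-minor.
-/

namespace Pool.Agent.Results.MP_5165fa_co.ColdSquares

open Set BIC BICS
open scoped Matroid

universe u

theorem result (k : ℕ) (hk : 0 < k) : ∃ κ₀ : ℕ, ∀ κ₁ : ℕ, ∃ s₀ : ℕ, ∀ (n : ℕ) (α : Type u)
    (M : Matroid α), M.Finite →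
    ∀ C₁ D₁ C₂ D₂ : Set α, C₁ ⊆ M.E → D₁ ⊆ M.E → C₂ ⊆ M.E → D₂ ⊆ M.E →
    Disjoint C₁ D₁ → Disjoint C₂ D₂ → Disjoint (M ／ C₁ ＼ D₁).E (M ／ C₂ ＼ D₂).E →
    ∀ e₁ e₂ : α → Sym2 (Option (Fin n × Fin n)),
    Shows (M ／ C₁ ＼ D₁) (GPlus n) e₁ → Shows (M ／ C₂ ＼ D₂)✶ (GPlus n) e₂ →
    (∀ Z : Set α, (M ／ C₁ ＼ D₁).E ⊆ Z → Z ⊆ M.E \ (M ／ C₂ ＼ D₂).E →
      (κ₀ : ℕ∞) + M.eRk M.E ≤ M.eRk Z + M.eRk (M.E \ Z)) →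
    ∀ a₁ b₁ s₁ a₂ b₂ s₂ : ℕ, s₀ ≤ s₁ → s₀ ≤ s₂ →
    a₁ + s₁ ≤ n → b₁ + s₁ ≤ n → a₂ + s₂ ≤ n → b₂ + s₂ ≤ n →
    ∀ X F₁ Y F₂ : Set α,
    X = {x | x ∈ (M ／ C₁ ＼ D₁).E ∧ ∀ v ∈ e₁ x, v ∈ sq n a₁ b₁ s₁} →
    F₁ = {x | x ∈ (M ／ C₁ ＼ D₁).E ∧ ∀ v ∈ e₁ x, v ∉ sq n a₁ b₁ s₁} →
    Y = {x | x ∈ (M ／ C₂ ＼ D₂).E ∧ ∀ v ∈ e₂ x, v ∈ sq n a₂ b₂ s₂} →
    F₂ = {x | x ∈ (M ／ C₂ ＼ D₂).E ∧ ∀ v ∈ e₂ x, v ∉ sq n a₂ b₂ s₂} →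
    ∀ M' : Matroid α,
    M' = M ／ ((C₁ \ (D₂ ∪ Y)) ∪ (F₁ \ D₂)) ＼ ((D₂ \ (C₁ ∪ X)) ∪ (F₂ \ C₁)) →
    (∃ Z : Set α, X ⊆ Z ∧ Z ⊆ M'.E \ Y ∧
      M'.eRk Z + M'.eRk (M'.E \ Z) ≤ (κ₁ : ℕ∞) + M'.eRk M'.E) →
    ∃ N : Matroid α, N ≤m M ∧ N.E.ncard = 2 * k ∧ ∀ B, N.IsBase B ↔ B ⊆ N.E ∧ B.ncard = k := by
  obtain ⟨κ₀, h⟩ := splus.{u} k (thmSP k hk)
  refine ⟨κ₀, fun κ₁ => ?_⟩
  obtain ⟨s₀, h⟩ := h κ₁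
  refine ⟨s₀, ?_⟩
  intro n α M hM C₁ D₁ C₂ D₂ hC₁ hD₁ hC₂ hD₂ h1 h2 hdis e₁ e₂ sh₁ sh₂ hκ a₁ b₁ s₁ a₂ b₂ s₂ hs₁ hs₂
    ha₁ hb₁ ha₂ hb₂ X F₁ Y F₂ hX hF₁ hY hF₂ M' hM' hZ
  refine h n M C₁ D₁ C₂ D₂ hC₁ hD₁ hC₂ hD₂ h1 h2 hdis e₁ e₂ sh₁ sh₂ ?_ a₁ b₁ s₁ a₂ b₂ s₂ hs₁ hs₂
    ha₁ hb₁ ha₂ hb₂ X F₁ Y F₂ hX hF₁ hY hF₂ ?_
  · intro Z g1 g2
    have g3 := hκ Z g1 g2
    rw [← cast_rk, ← cast_rk, ← cast_rk] at g3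
    exact_mod_cast g3
  · obtain ⟨Z, g1, g2, g3⟩ := hZ
    have hf : M'.Finite := by
      rw [hM']
      exact ⟨M.ground_finite.subset (sdiff_subset.trans sdiff_subset)⟩
    rw [← cast_rk, ← cast_rk, ← cast_rk] at g3
    have g4 : rk M' Z + rk M' (M'.E \ Z) ≤ κ₁ + rk M' M'.E := by exact_mod_cast g3
    intro hcon
    have g5 : KGe M' X Y (κ₁ + 1) := by rw [hM']; exact hcon
    have g6 := g5 Z g1 g2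
    omega

end Pool.Agent.Results.MP_5165fa_co.ColdSquares
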